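import Pool.Agent.Helper533.Eul.A

set_option autoImplicit false
set_option maxRecDepth 100000
open Finset

namespace Pool.Agent.Helper533.Eul

def e5 (V : Type) : (Fin 5 → V) ≃ V × V × V × V × V where
  toFun x := (x 0, x 1, x 2, x 3, x 4)
  invFun p := ![p.1, p.2.1, p.2.2.1, p.2.2.2.1, p.2.2.2.2]
  left_inv x := by funext i; fin_cases i <;> rfl
  right_inv p := rfl

theorem conv {V : Type} [Fintype V] (F : V → V → V → V → V → ℕ) :
    ∑ x : Fin 5 → V, F (x 0) (x 1) (x 2) (x 3) (x 4)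
      = ∑ a, ∑ b, ∑ c, ∑ d, ∑ e, F a b c d e := by
  rw [← Equiv.sum_comp (e5 V).symm]
  simp only [Fintype.sum_prod_type]
  rfl

theorem psd {V : Type} [Fintype V] (s : Finset ℕ) (u : ℕ → V → ℤ) :
    0 ≤ ∑ d, ∑ e, ∑ k ∈ s, u k d * u k e := by
  have h : ∑ d, ∑ e, ∑ k ∈ s, u k d * u k e = ∑ k ∈ s, (∑ d, u k d) * ∑ e, u k e := by
    simp only [Finset.sum_mul_sum]
    calc ∑ d, ∑ e, ∑ k ∈ s, u k d * u k e = ∑ d, ∑ k ∈ s, ∑ e, u k d * u k e :=
          sum_congr rfl fun d _ => sum_comm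
      _ = _ := sum_comm
  rw [h]
  exact sum_nonneg fun k _ => mul_self_nonneg _

variable {V : Type} (rel : V → V → ℕ)

theorem Pr_lt {d e : ℕ} (h : Pr d e) : d < 3 := by
  rcases h with ⟨rfl, rfl⟩ | ⟨rfl, rfl⟩ | ⟨rfl, rfl⟩ <;> norm_num

theorem cd_lt {x y z : ℕ} (hx : x < 3) (hy : y < 3) (hz : z < 3) : cd x y z < 27 := by
  show x + (3 * y + 9 * z) < 27
  omega

/-- number of ordered triples weighted by the number of adjacent pairs -/
def PP [Fintype V] : ℕ := ∑ a, ∑ b, ∑ c, na (cd (rel a b) (rel a c) (rel b c))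

theorem cd6_lt {x y z u v w : ℕ} (hx : x < 3) (hy : y < 3) (hz : z < 3) (hu : u < 3) (hv : v < 3)
    (hw : w < 3) : cd6 x y z u v w < 729 := by
  show x + (3 * y + (9 * z + (27 * u + (81 * v + 243 * w)))) < 729
  omega

theorem lower3 [Fintype V] (h : ∀ x y, Pr (rel x y) (rel y x)) :
    (8796093022208 : ℤ) * Fintype.card V ^ 5 + 137438953472 * Fintype.card V ^ 2 * (PP rel : ℤ)
      ≤ ((∑ x : Fin 5 → V, F3 rel (x 0) (x 1) (x 2) (x 3) (x 4) : ℕ) : ℤ) := by
  have hl : ∀ x y, rel x y < 3 := fun x y => Pr_lt (h x y)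
  rw [conv, PP]
  push_cast
  have e1 : (8796093022208 : ℤ) * Fintype.card V ^ 5 + 137438953472 * Fintype.card V ^ 2 *
      (∑ a, ∑ b, ∑ c, (na (cd (rel a b) (rel a c) (rel b c)) : ℤ))
      = ∑ a : V, ∑ b : V, ∑ c : V, ∑ d : V, ∑ e : V,
        ((8796093022208 : ℤ) + 137438953472 * (na (cd (rel a b) (rel a c) (rel b c)) : ℤ)) := by
    simp only [Finset.sum_add_distrib, ← Finset.mul_sum, Finset.sum_const, Finset.card_univ,
      nsmul_eq_mul]
    ring
  rw [e1]
  refine sum_le_sum fun a _ => sum_le_sum fun b _ => sum_le_sum fun c _ => ?_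
  have e2 : ∀ d e : V, (F3 rel a b c d e : ℤ) =
      ∑ k ∈ range 27, ((l3 (cd (rel a b) (rel a c) (rel b c)) (cd (rel a d) (rel b d) (rel c d)) k : ℤ) - 2097152) *
        ((l3 (cd (rel a b) (rel a c) (rel b c)) (cd (rel a e) (rel b e) (rel c e)) k : ℤ) - 2097152)
      + ((8796093022208 : ℤ) + 137438953472 * (na (cd (rel a b) (rel a c) (rel b c)) : ℤ)) := by
    intro d e
    rw [F3, q3_eq _ _ _ (cd_lt (hl _ _) (hl _ _) (hl _ _)) (cd_lt (hl _ _) (hl _ _) (hl _ _))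
      (cd_lt (hl _ _) (hl _ _) (hl _ _))]
    ring
  simp only [e2, Finset.sum_add_distrib (s := (Finset.univ : Finset V))]
  have := psd (V := V) (range 27) (fun k d => (l3 (cd (rel a b) (rel a c) (rel b c)) (cd (rel a d) (rel b d) (rel c d)) k : ℤ) - 2097152)
  linarith

theorem lower1 [Fintype V] (h : ∀ x y, Pr (rel x y) (rel y x)) :
    (8796093022208 : ℤ) * Fintype.card V ^ 5
      ≤ ((∑ x : Fin 5 → V, F1 rel (x 0) (x 1) (x 2) (x 3) (x 4) : ℕ) : ℤ) := by
  have hl : ∀ x y, rel x y < 3 := fun x y => Pr_lt (h x y)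
  rw [conv]
  push_cast
  have e2 : ∀ a b c d e : V, (F1 rel a b c d e : ℤ) =
      ∑ k ∈ range 15, ((l1 (cd (rel a b) (rel a c) (rel b c)) k : ℤ) - 2097152) *
        ((l1 (cd (rel a d) (rel a e) (rel d e)) k : ℤ) - 2097152) + 8796093022208 := by
    intro a b c d e
    rw [F1, q1_eq _ _ (cd_lt (hl _ _) (hl _ _) (hl _ _)) (cd_lt (hl _ _) (hl _ _) (hl _ _))]
  have e3 : ∀ a : V, (8796093022208 : ℤ) * Fintype.card V ^ 4 ≤
      ∑ b : V, ∑ c : V, ∑ d : V, ∑ e : V, (F1 rel a b c d e : ℤ) := by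
    intro a
    have p := psd (V := V × V) (range 15)
      (fun k q => (l1 (cd (rel a q.1) (rel a q.2) (rel q.1 q.2)) k : ℤ) - 2097152)
    simp only [Fintype.sum_prod_type] at p
    simp only [e2]
    have e4 : ∑ b : V, ∑ c : V, ∑ d : V, ∑ e : V,
        (∑ k ∈ range 15, ((l1 (cd (rel a b) (rel a c) (rel b c)) k : ℤ) - 2097152) *
        ((l1 (cd (rel a d) (rel a e) (rel d e)) k : ℤ) - 2097152) + 8796093022208)
        = ∑ b : V, ∑ c : V, ∑ d : V, ∑ e : V,
        (∑ k ∈ range 15, ((l1 (cd (rel a b) (rel a c) (rel b c)) k : ℤ) - 2097152) *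
        ((l1 (cd (rel a d) (rel a e) (rel d e)) k : ℤ) - 2097152)) + 8796093022208 * Fintype.card V ^ 4 := by
      simp only [Finset.sum_add_distrib (s := (Finset.univ : Finset V)), Finset.sum_const,
        Finset.card_univ, nsmul_eq_mul]
      ring
    rw [e4]
    linarith
  calc (8796093022208 : ℤ) * Fintype.card V ^ 5 = ∑ _a : V, (8796093022208 : ℤ) * Fintype.card V ^ 4 := by
        simp only [Finset.sum_const, Finset.card_univ, nsmul_eq_mul]; ring
    _ ≤ _ := sum_le_sum fun a _ => e3 a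

theorem lowerZ [Fintype V] (h : ∀ x y, Pr (rel x y) (rel y x))
    (hE : ∀ a : V, ∑ e : V, (if rel a e = 1 then 1 else 0) = ∑ e : V, (if rel a e = 2 then 1 else 0)) :
    ((∑ x : Fin 5 → V, FZ rel (x 0) (x 1) (x 2) (x 3) (x 4) : ℕ) : ℤ)
      = 4398046511104 * Fintype.card V ^ 5 := by
  have hl : ∀ x y, rel x y < 3 := fun x y => Pr_lt (h x y)
  rw [conv]
  push_cast
  have e2 : ∀ a b c d : V, ∑ e : V, (FZ rel a b c d e : ℤ) = 4398046511104 * Fintype.card V := by
    intro a b c d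
    have hc := cd6_lt (hl a b) (hl a c) (hl a d) (hl b c) (hl b d) (hl c d)
    obtain ⟨z0, z12⟩ := z4_all _ hc
    set C := cd6 (rel a b) (rel a c) (rel a d) (rel b c) (rel b d) (rel c d) with hC
    have z12' : (z4 C 1 : ℤ) + z4 C 2 = 8796093022208 := by exact_mod_cast z12
    have z0' : (z4 C 0 : ℤ) = 4398046511104 := by exact_mod_cast z0
    have e3 : ∀ e : V, (FZ rel a b c d e : ℤ) = 4398046511104 + ((z4 C 1 : ℤ) - 4398046511104) *
        (((if rel a e = 1 then 1 else 0 : ℕ) : ℤ) - ((if rel a e = 2 then 1 else 0 : ℕ) : ℤ)) := by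
      intro e
      have hr := hl a e
      rw [FZ, ← hC]
      have : rel a e = 0 ∨ rel a e = 1 ∨ rel a e = 2 := by omega
      rcases this with r | r | r
      · rw [r, z0']; norm_num
      · rw [r]; norm_num
      · rw [r]; norm_num; linarith
    simp only [e3, Finset.sum_add_distrib, ← Finset.mul_sum, Finset.sum_sub_distrib]
    rw [← Nat.cast_sum, ← Nat.cast_sum, hE a]
    simp only [Finset.sum_const, Finset.card_univ, nsmul_eq_mul]
    ring
  simp only [e2, Finset.sum_const, Finset.card_univ, nsmul_eq_mul]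
  ring

theorem main_aux [Fintype V] (h : ∀ x y, Pr (rel x y) (rel y x)) (hz : NoC3 rel)
    (hE : ∀ a : V, ∑ e : V, (if rel a e = 1 then 1 else 0) = ∑ e : V, (if rel a e = 2 then 1 else 0)) :
    100000 * PP rel ≤ 206685 * Fintype.card V ^ 3 := by
  have t := total rel h hz
  have a3 := lower3 rel h
  have a1 := lower1 rel h
  have aZ := lowerZ rel h hE
  rcases Nat.eq_zero_or_pos (Fintype.card V) with h0 | hpos
  · haveI : IsEmpty V := Fintype.card_eq_zero_iff.mp h0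
    simp [PP]
  have t' : (10 : ℤ) * ((∑ x : Fin 5 → V, F3 rel (x 0) (x 1) (x 2) (x 3) (x 4) : ℕ) : ℤ)
      + 60 * ((∑ x : Fin 5 → V, F1 rel (x 0) (x 1) (x 2) (x 3) (x 4) : ℕ) : ℤ)
      + 20 * ((∑ x : Fin 5 → V, FZ rel (x 0) (x 1) (x 2) (x 3) (x 4) : ℕ) : ℤ)
      ≤ 706528098786476 * (Fintype.card V : ℤ) ^ 5 := by exact_mod_cast t
  have hN : (0 : ℤ) < (Fintype.card V : ℤ) ^ 2 := by positivity
  have key : (Fintype.card V : ℤ) ^ 2 * (100000 * (PP rel : ℤ)) ≤
      (Fintype.card V : ℤ) ^ 2 * (206685 * (Fintype.card V : ℤ) ^ 3) := by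
    have h5 : (0 : ℤ) ≤ (Fintype.card V : ℤ) ^ 5 := by positivity
    have e : (Fintype.card V : ℤ) ^ 2 * (206685 * (Fintype.card V : ℤ) ^ 3)
        = 206685 * (Fintype.card V : ℤ) ^ 5 := by ring
    rw [e]
    nlinarith
  have := le_of_mul_le_mul_left key hN
  exact_mod_cast this

end Pool.Agent.Helper533.Eul
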